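import Pool.Agent.R721.CD.Char

set_option linter.unusedSectionVars false
set_option autoImplicit false

open scoped BigOperators
open Representation

noncomputable section

namespace Pool.Agent.R721.HC

/-- `chi` is the character of a finite-dimensional complex representation of `G` -/
def IsChar {G : Type} [Group G] (chi : G → ℂ) : Prop :=
  ∃ (V : Type) (_ : AddCommGroup V) (_ : Module ℂ V) (_ : FiniteDimensional ℂ V)
    (rho : Representation ℂ G V), chi = rho.character

/-- `chi g ≡ chi g' (mod N)`: the difference lies in `N O`, where `O` is the ring of algebraic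
integers of the field `ℚ(chi)` generated by the values of `chi` -/
def Cong {G : Type} (chi : G → ℂ) (N : ℕ) (g g' : G) : Prop :=
  ∃ z ∈ IntermediateField.adjoin ℚ (Set.range chi), IsIntegral ℤ z ∧
    chi g - chi g' = (N : ℂ) * z

/-- the generating steps of the relation `∼_m` -/
def Step {G : Type} [Group G] (p m : ℕ) (g g' : G) : Prop :=
  (∃ x : G, g' = x * g * x⁻¹) ∨
    ∃ h : G, h * g = g * h ∧ (∃ k : ℕ, orderOf h = p ^ k) ∧ g' = g * h ^ p ^ (m - 1)

/-- the relation `∼_m` (for the prime `p`): the smallest equivalence relation containing the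
steps -/
def Sim {G : Type} [Group G] (p m : ℕ) : G → G → Prop := Relation.EqvGen (Step p m)

/-- the equivalence asked for fails for `G`, `p`, `m`, in the strongest sense: two elements that
are not related by `∼_m` have congruent values modulo `p ^ m` at every character of `G`
(unramified or not) -/
def Fails (G : Type) [Group G] (p m : ℕ) : Prop :=
  ∃ g g' : G, ¬ Sim p m g g' ∧ ∀ chi : G → ℂ, IsChar chi → Cong chi (p ^ m) g g'

open Pool.Agent.Helper884.IC Pool.Agent.R721.CD in
lemma char_int_val {G : Type} [Group G] [Fintype G] {f : G → ℂ} (hf : IsRepChar f) (g : G) :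
    IsIntegral ℤ (f g) := by
  rw [expand_at f hf.isClass g]
  refine IsIntegral.sum _ fun chi hchi => ?_
  obtain ⟨n, hn⟩ := mult_nat_rep hf (IsRepChar.of_irr (mem_Irr.mp hchi))
  rw [hn]
  exact ((isIntegral_algebraMap (R := ℤ) (x := (n : ℤ))).mul
    (char_integral (mem_Irr.mp hchi) g) : _) |> fun h => by simpa using h

open Pool.Agent.Helper884.IC Pool.Agent.R721.CD in
/-- sums of character values over the image of a homomorphism -/
lemma sum_char {G P : Type} [Group G] [Fintype G] [Group P] [Fintype P] (phi : P →* G)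
    {chi : G → ℂ} (h : IsRepChar chi) :
    ∃ n : ℕ, ∑ x : P, chi (phi x) = Fintype.card P * n := by
  have h1 : IsRepChar (fun x : P => chi (phi x)) := h.comp phi
  have h2 : IsRepChar (fun _ : P => (1 : ℂ)) := by
    refine ⟨ℂ, inferInstance, inferInstance, inferInstance, Representation.trivial ℂ P ℂ, ?_⟩
    funext x
    simp [Representation.character]
  obtain ⟨n, hn⟩ := mult_nat_rep h1 h2
  refine ⟨n, ?_⟩
  unfold B at hn
  rw [← hn]
  have hc : (Nat.card P : ℂ) ≠ 0 := cardG_ne
  have hc2 : (Fintype.card P : ℂ) ≠ 0 := by rwa [Nat.card_eq_fintype_card] at hc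
  simp only [mul_one, Nat.card_eq_fintype_card]
  field_simp

open Pool.Agent.R721.CD in
/-- an elementary abelian type argument: if all non-identity elements of (the image of) `P` are
conjugate to `g`, then `chi 1 ≡ chi g` modulo `|P|` -/
lemma cong_of_transitive {G P : Type} [Group G] [Fintype G] [Group P] [Fintype P] [DecidableEq P]
    (phi : P →* G) (g : G) (hg : ∀ x : P, x ≠ 1 → ∃ y : G, phi x = y * g * y⁻¹)
    (N : ℕ) (hN : N ∣ Fintype.card P)
    (chi : G → ℂ) (h : IsChar chi) : Cong chi N g 1 := by
  have hr : IsRepChar chi := h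
  obtain ⟨n, hn⟩ := sum_char phi hr
  obtain ⟨c, hc⟩ := hN
  have hcl : ∀ x : P, x ≠ 1 → chi (phi x) = chi g := by
    intro x hx
    obtain ⟨y, hy⟩ := hg x hx
    rw [hy]
    exact hr.isClass g y
  have h1 : ∑ x : P, chi (phi x) = chi 1 + ((Fintype.card P : ℂ) - 1) * chi g := by
    rw [← Finset.add_sum_erase _ _ (Finset.mem_univ (1 : P)), map_one]
    congr 1
    rw [Finset.sum_congr rfl fun x hx => hcl x (Finset.ne_of_mem_erase hx), Finset.sum_const,
      Finset.card_erase_of_mem (Finset.mem_univ _), Finset.card_univ, nsmul_eq_mul,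
      Nat.cast_sub Fintype.card_pos, Nat.cast_one]
  refine ⟨(c : ℂ) * (chi g - n), ?_, ?_, ?_⟩
  · refine mul_mem ?_ (sub_mem ?_ ?_)
    · exact natCast_mem _ c
    · exact IntermediateField.subset_adjoin _ _ ⟨g, rfl⟩
    · exact natCast_mem _ n
  · have a1 : IsIntegral ℤ ((c : ℂ)) := by
      simpa using isIntegral_algebraMap (R := ℤ) (A := ℂ) (x := (c : ℤ))
    have a2 : IsIntegral ℤ ((n : ℂ)) := by
      simpa using isIntegral_algebraMap (R := ℤ) (A := ℂ) (x := (n : ℤ))
    exact a1.mul ((char_int_val hr g).sub a2)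
  · have h2 : (Fintype.card P : ℂ) = (N : ℂ) * c := by rw [hc]; push_cast; rfl
    rw [h1, h2] at hn
    linear_combination (-1 : ℂ) * hn

/-- if the `p ^ (m-1)`-th powers of `p`-elements are trivial then `∼_m` is conjugacy -/
lemma not_sim {G : Type} [Group G] {p m : ℕ}
    (hp : ∀ h : G, (∃ k : ℕ, orderOf h = p ^ k) → h ^ p ^ (m - 1) = 1) {g g' : G}
    (hg : ¬ IsConj g g') : ¬ Sim p m g g' := by
  intro h
  apply hg
  clear hg
  induction h with
  | rel a b hab =>
    rcases hab with ⟨x, rfl⟩ | ⟨h, -, h2, rfl⟩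
    · exact isConj_iff.mpr ⟨x, rfl⟩
    · rw [hp h h2, mul_one]
  | refl a => exact IsConj.refl a
  | symm a b _ ih => exact ih.symm
  | trans a b c _ _ ih1 ih2 => exact ih1.trans ih2

end Pool.Agent.R721.HC
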