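import Mathlib

set_option linter.unusedSectionVars false
set_option autoImplicit false

open scoped BigOperators
open Matrix Polynomial

noncomputable section

namespace Pool.Agent.R721.HC

/-! The exponent of a Sylow `p`-subgroup of `SL_n(F)` when `n = p ^ r` and `p` exactly divides
`|F| - 1` -/

variable {E F : Type} [Fintype E] [DecidableEq E] [Field F] [Fintype F]

lemma no_root {p : ℕ} (hp : p.Prime) (hq : ¬ p ^ 2 ∣ Fintype.card F - 1) {c : F} (hc : c ^ p = 1)
    (hc1 : c ≠ 1) (b : F) : b ^ p ≠ c := by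
  intro hb
  have : Fact p.Prime := ⟨hp⟩
  have h1 : ¬ b ^ p ^ 1 = 1 := by rwa [pow_one, hb]
  have h2 : b ^ p ^ (1 + 1) = 1 := by
    rw [pow_succ, pow_one, pow_mul, hb, hc]
  have h3 := orderOf_eq_prime_pow h1 h2
  have hb0 : b ≠ 0 := by
    rintro rfl
    rw [zero_pow hp.ne_zero] at hb
    rw [← hb, zero_pow hp.ne_zero] at hc
    exact zero_ne_one hc
  have h4 := orderOf_dvd_of_pow_eq_one (FiniteField.pow_card_sub_one_eq_one b hb0)
  rw [h3] at h4
  exact hq h4

lemma exists_eig {p : ℕ} (hp : p.Prime) (hq1 : p ∣ Fintype.card F - 1) {Y : Matrix E E F}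
    (hY : Y ^ p = 1) (hY1 : Y ≠ 1) :
    ∃ c : F, c ^ p = 1 ∧ c ≠ 1 ∧ (Y - Matrix.scalar E c).det = 0 := by
  classical
  by_contra hcon
  push Not at hcon
  obtain ⟨u, hu⟩ : ∃ u : F, IsPrimitiveRoot u p := by
    obtain ⟨g, hg⟩ := IsCyclic.exists_generator (α := Fˣ)
    obtain ⟨k, hk⟩ := hq1
    have ho : orderOf g = Fintype.card F - 1 := by
      rw [orderOf_eq_card_of_forall_mem_zpowers hg, Nat.card_eq_fintype_card,
        Fintype.card_units]
    have hk0 : k ≠ 0 := by
      rintro rfl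
      rw [mul_zero] at hk
      have := Fintype.one_lt_card (α := F)
      omega
    refine ⟨((g ^ k : Fˣ) : F), ?_⟩
    rw [IsPrimitiveRoot.coe_units_iff]
    have : orderOf (g ^ k) = p := by
      rw [orderOf_pow' g hk0, ho, hk, Nat.gcd_eq_right (dvd_mul_left k p),
        Nat.mul_div_cancel _ (Nat.pos_of_ne_zero hk0)]
    rw [← this]
    exact IsPrimitiveRoot.orderOf _
  have hprod := X_pow_sub_one_eq_prod hp.pos hu
  have h1mem : (1 : F) ∈ nthRootsFinset p (1 : F) := by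
    rw [mem_nthRootsFinset hp.pos, one_pow]
  rw [← Finset.mul_prod_erase _ _ h1mem] at hprod
  set Q := ∏ x ∈ (nthRootsFinset p (1 : F)).erase 1, (X - C x) with hQ
  have h2 := congrArg (aeval Y) hprod
  rw [map_sub, map_pow, aeval_X, map_one, hY, sub_self, map_mul, map_sub, aeval_X, map_one,
    map_one] at h2
  let D : F[X] →* F := (Matrix.detMonoidHom).comp (aeval Y : F[X] →ₐ[F] Matrix E E F).toRingHom.toMonoidHom
  have hD : ∀ P : F[X], D P = (aeval Y P).det := fun P => rfl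
  have h3 : (aeval Y Q).det ≠ 0 := by
    rw [← hD, hQ, map_prod]
    refine Finset.prod_ne_zero_iff.mpr fun c hc => ?_
    rw [hD, map_sub, aeval_X, aeval_C]
    obtain ⟨hc1, hc2⟩ := Finset.mem_erase.mp hc
    rw [mem_nthRootsFinset hp.pos] at hc2
    exact hcon c hc2 hc1
  have h4 : IsUnit (aeval Y Q) := by
    rw [Matrix.isUnit_iff_isUnit_det]
    exact isUnit_iff_ne_zero.mpr h3
  have h5 : Y - 1 = 0 := by
    obtain ⟨v, hv⟩ := h4
    have : (Y - 1) * (v : Matrix E E F) = 0 := by rw [hv]; exact h2.symm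
    calc Y - 1 = (Y - 1) * (v : Matrix E E F) * ((v⁻¹ : (Matrix E E F)ˣ) : Matrix E E F) := by
          rw [Matrix.mul_assoc, Units.mul_inv, Matrix.mul_one]
      _ = 0 := by rw [this, Matrix.zero_mul]
  exact hY1 (sub_eq_zero.mp h5)

lemma pow_one_step {p r : ℕ} (hp : p.Prime) (hp2 : p ≠ 2) (hn : Fintype.card E = p ^ r)
    (hq1 : p ∣ Fintype.card F - 1) (hq2 : ¬ p ^ 2 ∣ Fintype.card F - 1) {N : Matrix E E F}
    (hdet : N.det = 1) (hN : N ^ p ^ (r + 1) = 1) : N ^ p ^ r = 1 := by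
  by_contra hne
  obtain ⟨c, hc, hc1, hd⟩ := exists_eig hp hq1 (Y := N ^ p ^ r) (by rw [← pow_mul, ← pow_succ, hN]) hne
  have hirr : Irreducible (X ^ p ^ r - C c : F[X]) :=
    X_pow_sub_C_irreducible_of_prime_pow hp hp2 r (fun b => no_root hp hq2 hc hc1 b)
  have hae : aeval N (X ^ p ^ r - C c : F[X]) = N ^ p ^ r - Matrix.scalar E c := by
    rw [map_sub, map_pow, aeval_X, aeval_C]
    rfl
  have hdvd : (X ^ p ^ r - C c : F[X]) ∣ N.charpoly := by
    by_contra hnd
    obtain ⟨u, v, huv⟩ := (hirr.coprime_iff_not_dvd.mpr hnd)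
    have h1 := congrArg (aeval N) huv
    rw [map_add, map_mul, map_mul, Matrix.aeval_self_charpoly, mul_zero, add_zero, map_one, hae] at h1
    have h2 := congrArg Matrix.det h1
    rw [Matrix.det_mul, hd, mul_zero, Matrix.det_one] at h2
    exact zero_ne_one h2
  have hpos : p ^ r ≠ 0 := pow_ne_zero _ hp.ne_zero
  have hmon : (X ^ p ^ r - C c : F[X]).Monic := monic_X_pow_sub_C c hpos
  have hdeg : (X ^ p ^ r - C c : F[X]).natDegree = p ^ r := natDegree_X_pow_sub_C
  have heq : N.charpoly = X ^ p ^ r - C c := by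
    refine (Polynomial.eq_of_monic_of_dvd_of_natDegree_le hmon N.charpoly_monic hdvd ?_)
    rw [hdeg, Matrix.charpoly_natDegree_eq_dim, hn]
  have h3 := Matrix.det_eq_sign_charpoly_coeff N
  rw [hdet, heq, hn, coeff_sub, coeff_X_pow, coeff_C_zero, if_neg (fun h => hpos h.symm),
    ((hp.odd_of_ne_two hp2).pow).neg_one_pow] at h3
  apply hc1
  linear_combination (-1 : F) * h3

lemma pow_all {p r : ℕ} (hp : p.Prime) (hp2 : p ≠ 2) (hn : Fintype.card E = p ^ r)
    (hq1 : p ∣ Fintype.card F - 1) (hq2 : ¬ p ^ 2 ∣ Fintype.card F - 1) {M : Matrix E E F}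
    (hdet : M.det = 1) (j : ℕ) (hM : M ^ p ^ j = 1) : M ^ p ^ r = 1 := by
  induction j with
  | zero =>
    rw [pow_zero, pow_one] at hM
    rw [hM, one_pow]
  | succ j ih =>
    by_cases h : j + 1 ≤ r
    · obtain ⟨k, hk⟩ := Nat.exists_eq_add_of_le h
      rw [hk, pow_add, pow_mul, hM, one_pow]
    · obtain ⟨k, hk⟩ := Nat.exists_eq_add_of_le (show r ≤ j by omega)
      apply ih
      have h1 : (M ^ p ^ k) ^ p ^ (r + 1) = 1 := by
        rw [← pow_mul, ← pow_add, show k + (r + 1) = j + 1 by omega, hM]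
      have h2 := pow_one_step hp hp2 hn hq1 hq2 (N := M ^ p ^ k) (by rw [Matrix.det_pow, hdet, one_pow]) h1
      rw [← pow_mul, ← pow_add] at h2
      rw [hk, add_comm r k, h2]

end Pool.Agent.R721.HC
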