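import Pool.Agent.R721.HC.Weyl
import Pool.Agent.R721.HC.Expo

set_option linter.unusedSectionVars false
set_option autoImplicit false

open scoped BigOperators
open Matrix

noncomputable section

namespace Pool.Agent.R721.HC

section psl

variable {E F : Type} [Fintype E] [DecidableEq E] [Field F]

/-- two elements of `SL` that differ by a scalar have the same image in `PSL` -/
lemma mk_eq_of_smul (A B : Matrix.SpecialLinearGroup E F) (c : F)
    (h : (A : Matrix E E F) = c • (B : Matrix E E F)) :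
    (QuotientGroup.mk A : Matrix.ProjectiveSpecialLinearGroup E F) = QuotientGroup.mk B := by
  apply Eq.symm
  rw [QuotientGroup.eq, Subgroup.mem_center_iff]
  have hs : ((B⁻¹ * A : Matrix.SpecialLinearGroup E F) : Matrix E E F) = c • 1 := by
    have h1 : ((B⁻¹ * B : Matrix.SpecialLinearGroup E F) : Matrix E E F) = 1 := by
      rw [inv_mul_cancel]; rfl
    rw [Matrix.SpecialLinearGroup.coe_mul] at h1 ⊢
    rw [h, Matrix.mul_smul, h1]
  intro g
  apply Subtype.ext
  change (g : Matrix E E F) * ((B⁻¹ * A : Matrix.SpecialLinearGroup E F) : Matrix E E F) =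
    ((B⁻¹ * A : Matrix.SpecialLinearGroup E F) : Matrix E E F) * (g : Matrix E E F)
  rw [hs, Matrix.mul_smul, Matrix.smul_mul, Matrix.mul_one, Matrix.one_mul]

/-- `p`-elements of `PSL_n(F)`, `n = p ^ r`, have order dividing `p ^ r` -/
lemma psl_expo [Fintype F] {p r : ℕ} (hp : p.Prime) (hp2 : p ≠ 2) (hn : Fintype.card E = p ^ r)
    (hq1 : p ∣ Fintype.card F - 1) (hq2 : ¬ p ^ 2 ∣ Fintype.card F - 1)
    (h : Matrix.ProjectiveSpecialLinearGroup E F) (hh : ∃ k : ℕ, orderOf h = p ^ k) :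
    h ^ p ^ r = 1 := by
  obtain ⟨k, hk⟩ := hh
  obtain ⟨M, rfl⟩ := QuotientGroup.mk_surjective h
  have h1 : (QuotientGroup.mk (M ^ p ^ k) : Matrix.ProjectiveSpecialLinearGroup E F) = 1 := by
    have := pow_orderOf_eq_one (QuotientGroup.mk M : Matrix.ProjectiveSpecialLinearGroup E F)
    rw [hk] at this
    exact this
  rw [QuotientGroup.eq_one_iff, Matrix.SpecialLinearGroup.mem_center_iff] at h1
  obtain ⟨c, hc, hcM⟩ := h1
  rw [hn] at hc
  have h2 : (M : Matrix E E F) ^ p ^ (k + r) = 1 := by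
    rw [pow_add, pow_mul]
    have : (M : Matrix E E F) ^ p ^ k = Matrix.scalar E c := by
      rw [hcM]; rfl
    rw [this, ← map_pow, hc, map_one]
  have h3 := pow_all hp hp2 hn hq1 hq2 M.2 _ h2
  have h4 : M ^ p ^ r = 1 := Subtype.ext (by
    rw [Matrix.SpecialLinearGroup.coe_pow, h3]; rfl)
  have h5 : (QuotientGroup.mk (M ^ p ^ r) : Matrix.ProjectiveSpecialLinearGroup E F) = 1 := by
    rw [h4]; rfl
  exact h5

end psl

section main

variable {E F : Type} [Field E] [Fintype E] [DecidableEq E] [Field F] [Fintype F]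

/-- lift to the special linear group -/
def WS (psi : AddChar E F) (hdet : ∀ a b, (W psi a b).det = 1) (w : E × E) :
    Matrix.SpecialLinearGroup E F := ⟨W psi w.1 w.2, hdet _ _⟩

/-- the elementary abelian subgroup of `PSL` -/
def phi (psi : AddChar E F) (hdet : ∀ a b, (W psi a b).det = 1) :
    Multiplicative (E × E) →* Matrix.ProjectiveSpecialLinearGroup E F where
  toFun w := QuotientGroup.mk (WS psi hdet (Multiplicative.toAdd w))
  map_one' := by
    have : WS psi hdet (0, 0) = 1 := Subtype.ext (W_zero psi)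
    change (QuotientGroup.mk (WS psi hdet (0, 0)) : Matrix.ProjectiveSpecialLinearGroup E F) = 1
    rw [this]
    rfl
  map_mul' w w' := by
    rw [← QuotientGroup.mk_mul]
    apply Eq.symm
    apply mk_eq_of_smul _ _ (psi ((Multiplicative.toAdd w').2 * (Multiplicative.toAdd w).1))
    exact W_mul psi _ _ _ _

lemma fails_odd {p r : ℕ} (hp : p.Prime) (hp2 : p ≠ 2) (hr : 1 ≤ r)
    (hn : Fintype.card E = p ^ r) (hq1 : p ∣ Fintype.card F - 1)
    (hq2 : ¬ p ^ 2 ∣ Fintype.card F - 1) (psi : AddChar E F) (hpsi : psi ≠ 1)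
    (hpsi2 : ∀ x, psi x ^ p ^ r = 1) (hpF : (p : F) ≠ 0) :
    Fails (Matrix.ProjectiveSpecialLinearGroup E F) p (r + 1) := by
  classical
  have hodd : Odd (p ^ r) := (hp.odd_of_ne_two hp2).pow
  have hdet : ∀ a b, (W psi a b).det = 1 := W_det hn hpsi2 hodd
  have hpE : (p : E) = 0 := by
    have h1 : ((p ^ r : ℕ) : E) = 0 := by rw [← hn]; exact Nat.cast_card_eq_zero E
    rw [Nat.cast_pow] at h1
    exact pow_eq_zero_iff (by omega) |>.mp h1
  have h2E : (2 : E) ≠ 0 := by
    intro h2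
    obtain ⟨k, hk⟩ := hp.odd_of_ne_two hp2
    have h3 : (p : E) = 2 * k + 1 := by rw [hk]; push_cast; ring
    rw [h2, hpE, zero_mul, zero_add] at h3
    exact zero_ne_one h3
  have hnF : ((p ^ r : ℕ) : F) ≠ 0 := by
    rw [Nat.cast_pow]
    exact pow_ne_zero _ hpF
  have hprim : psi.IsPrimitive := AddChar.IsPrimitive.of_ne_one hpsi
  let w0 : Multiplicative (E × E) := Multiplicative.ofAdd (0, 1)
  refine ⟨phi psi hdet w0, 1, ?_, ?_⟩
  · apply not_sim (p := p) (m := r + 1) (fun h hh => psl_expo hp hp2 hn hq1 hq2 h hh)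
    intro hc
    rw [isConj_one_left] at hc
    have h1 : (QuotientGroup.mk (WS psi hdet (0, 1)) : Matrix.ProjectiveSpecialLinearGroup E F) = 1 := hc
    rw [QuotientGroup.eq_one_iff, Matrix.SpecialLinearGroup.mem_center_iff] at h1
    obtain ⟨c, -, hcM⟩ := h1
    have h2 : Matrix.scalar E c = Matrix.diagonal fun x : E => psi (1 * x) := by
      rw [hcM]
      exact W_zero_left psi 1
    have h3 : ∀ x : E, psi x = c := by
      intro x
      have := congrFun (congrFun h2 x) x
      rw [Matrix.diagonal_apply_eq, one_mul] at this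
      rw [← this]
      simp
    apply hpsi
    ext x
    rw [h3 x, ← h3 0, AddChar.map_zero_eq_one, AddChar.one_apply]
  · intro chi hchi
    apply cong_of_transitive (phi psi hdet) (phi psi hdet w0) _ _ _ chi hchi
    · intro x hx
      have hx' : ¬ ((Multiplicative.toAdd x).1 = 0 ∧ (Multiplicative.toAdd x).2 = 0) := by
        rintro ⟨h1, h2⟩
        apply hx
        have : Multiplicative.toAdd x = 0 := Prod.ext h1 h2
        exact this
      obtain ⟨K, c, hK, hKc⟩ := inter_all hn hnF hprim h2E hx'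
      refine ⟨QuotientGroup.mk ⟨K, hK⟩, ?_⟩
      rw [eq_mul_inv_iff_mul_eq]
      exact mk_eq_of_smul (WS psi hdet (Multiplicative.toAdd x) * ⟨K, hK⟩) (⟨K, hK⟩ * WS psi hdet (0, 1)) c hKc
    · have : Fintype.card (Multiplicative (E × E)) = p ^ (r + r) := by
        rw [Fintype.card_multiplicative, Fintype.card_prod, hn, ← pow_add]
      rw [this]
      exact pow_dvd_pow p (by omega)

lemma exists_prim {p : ℕ} (hp : p.Prime) (hq1 : p ∣ Fintype.card F - 1) :
    ∃ u : F, IsPrimitiveRoot u p := by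
  classical
  obtain ⟨g, hg⟩ := IsCyclic.exists_generator (α := Fˣ)
  obtain ⟨k, hk⟩ := hq1
  have ho : orderOf g = Fintype.card F - 1 := by
    rw [orderOf_eq_card_of_forall_mem_zpowers hg, Nat.card_eq_fintype_card,
      Fintype.card_units]
  have hk0 : k ≠ 0 := by
    rintro rfl
    rw [mul_zero] at hk
    have := Fintype.one_lt_card (α := F)
    omega
  refine ⟨((g ^ k : Fˣ) : F), ?_⟩
  rw [IsPrimitiveRoot.coe_units_iff]
  have : orderOf (g ^ k) = p := by
    rw [orderOf_pow' g hk0, ho, hk, Nat.gcd_eq_right (dvd_mul_left k p),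
      Nat.mul_div_cancel _ (Nat.pos_of_ne_zero hk0)]
  rw [← this]
  exact IsPrimitiveRoot.orderOf _

lemma exists_addChar {p r : ℕ} (hp : p.Prime) (hr : 1 ≤ r) (hn : Fintype.card E = p ^ r)
    (hq1 : p ∣ Fintype.card F - 1) :
    ∃ psi : AddChar E F, psi ≠ 1 ∧ ∀ x, psi x ^ p ^ r = 1 := by
  have hpf : Fact p.Prime := ⟨hp⟩
  have hpE : (p : E) = 0 := by
    have h1 : ((p ^ r : ℕ) : E) = 0 := by rw [← hn]; exact Nat.cast_card_eq_zero E
    rw [Nat.cast_pow] at h1
    exact pow_eq_zero_iff (by omega) |>.mp h1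
  have hchar : CharP E p := (CharP.charP_iff_prime_eq_zero hp).mpr hpE
  let alg : Algebra (ZMod p) E := ZMod.algebra E p
  obtain ⟨u, hu⟩ := exists_prim (F := F) hp hq1
  obtain ⟨f, hf⟩ : ∃ f : Module.Dual (ZMod p) E, f 1 ≠ 0 := by
    by_contra hcon
    push Not at hcon
    exact one_ne_zero ((Module.forall_dual_apply_eq_zero_iff (ZMod p) (1 : E)).mp hcon)
  let psi : AddChar E F := (AddChar.zmodChar p hu.pow_eq_one).compAddMonoidHom f.toAddMonoidHom
  have hpsi : ∀ x, psi x = u ^ (f x).val := fun x => rfl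
  refine ⟨psi, ?_, ?_⟩
  · intro h
    have h1 : psi 1 = 1 := by rw [h, AddChar.one_apply]
    rw [hpsi, hu.pow_eq_one_iff_dvd] at h1
    apply hf
    rw [← ZMod.natCast_zmod_val (f 1)]
    exact (ZMod.natCast_eq_zero_iff _ _).mpr h1
  · intro x
    obtain ⟨k, rfl⟩ := Nat.exists_eq_add_of_le hr
    rw [hpsi, ← pow_mul, mul_comm, pow_mul, pow_add, pow_one, pow_mul, hu.pow_eq_one, one_pow, one_pow]

end main

lemma cast_ne {F : Type} [Field F] [Fintype F] {p : ℕ} (hp : p.Prime)
    (hq1 : p ∣ Fintype.card F - 1) : (p : F) ≠ 0 := by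
  intro h0
  have h3 : ringChar F ∣ p := ringChar.dvd h0
  have h4 : ringChar F = p := ((Nat.dvd_prime hp).mp h3).resolve_left (CharP.ringChar_ne_one)
  have h5 : (ringChar F) ∣ Fintype.card F := by
    obtain ⟨n, -, hn2⟩ := FiniteField.card F (ringChar F)
    rw [hn2]
    exact dvd_pow_self _ n.ne_zero
  rw [h4] at h5
  have h6 : p ∣ 1 := by
    have := Nat.dvd_sub h5 hq1
    rwa [Nat.sub_sub_self Fintype.card_pos] at this
  exact hp.one_lt.ne' (Nat.dvd_one.mp h6)

lemma fails_card {ι F : Type} [Fintype ι] [DecidableEq ι] [Field F] [Fintype F] {p r : ℕ}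
    (hp : p.Prime) (hp2 : p ≠ 2) (hr : 1 ≤ r)
    (hn : Fintype.card ι = p ^ r) (hq1 : p ∣ Fintype.card F - 1)
    (hq2 : ¬ p ^ 2 ∣ Fintype.card F - 1) :
    Fails (Matrix.ProjectiveSpecialLinearGroup ι F) p (r + 1) := by
  classical
  have hpf : Fact p.Prime := ⟨hp⟩
  have hfin : Fintype (GaloisField p r) := Fintype.ofFinite _
  have hcard : Fintype.card (GaloisField p r) = p ^ r := by
    rw [← Nat.card_eq_fintype_card]
    exact GaloisField.card p r (by omega)
  let e : ι ≃ GaloisField p r := Fintype.equivOfCardEq (hn.trans hcard.symm)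
  let fld : Field ι := e.field
  obtain ⟨psi, h1, h2⟩ := exists_addChar (E := ι) (F := F) hp hr hn hq1
  exact fails_odd hp hp2 hr hn hq1 hq2 psi h1 h2 (cast_ne hp hq1)

/-- the negative answer for odd primes -/
theorem odd_part (p m : ℕ) (hp : p.Prime) (hp2 : p ≠ 2) (hm : 2 ≤ m) (F : Type) [Field F]
    [Fintype F] (hq1 : p ∣ Fintype.card F - 1) (hq2 : ¬ p ^ 2 ∣ Fintype.card F - 1) :
    Fails (Matrix.ProjectiveSpecialLinearGroup (Fin (p ^ (m - 1))) F) p m := by
  have := fails_card (ι := Fin (p ^ (m - 1))) (F := F) (r := m - 1) hp hp2 (by omega)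
    (Fintype.card_fin _) hq1 hq2
  rwa [show m - 1 + 1 = m by omega] at this

/-- there are infinitely many primes `l` such that `p` exactly divides `l - 1` -/
theorem infinite_primes (p : ℕ) (hp : p.Prime) :
    {l : ℕ | l.Prime ∧ p ∣ l - 1 ∧ ¬ p ^ 2 ∣ l - 1}.Infinite := by
  have hne : NeZero (p ^ 2) := ⟨pow_ne_zero _ hp.ne_zero⟩
  have hu : IsUnit ((1 + p : ℕ) : ZMod (p ^ 2)) := by
    rw [ZMod.isUnit_iff_coprime]
    apply Nat.Coprime.pow_right
    have : (1 + p).Coprime p := by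
      rw [Nat.coprime_add_self_left]
      exact Nat.coprime_one_left p
    exact this
  refine (Nat.infinite_setOfPred_prime_and_eq_mod hu).mono ?_
  rintro l ⟨hl, hl2⟩
  have h1 := (ZMod.natCast_eq_natCast_iff _ _ _).mp hl2
  have hpos : 1 ≤ l := hl.one_lt.le
  have h2 : l - 1 ≡ p [MOD p ^ 2] := by
    have : (l - 1) + 1 ≡ p + 1 [MOD p ^ 2] := by
      rw [Nat.sub_add_cancel hpos, add_comm p 1]
      exact h1
    exact Nat.ModEq.add_right_cancel' 1 this
  refine ⟨hl, ?_, ?_⟩
  · have h3 : l - 1 ≡ p [MOD p] := h2.of_dvd (dvd_pow_self p two_ne_zero)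
    exact (Nat.modEq_zero_iff_dvd).mp (h3.trans ((Nat.modEq_zero_iff_dvd).mpr dvd_rfl))
  · intro h
    have h3 : p ≡ 0 [MOD p ^ 2] := h2.symm.trans ((Nat.modEq_zero_iff_dvd).mpr h)
    have h4 := Nat.le_of_dvd hp.pos ((Nat.modEq_zero_iff_dvd).mp h3)
    have := hp.one_lt
    nlinarith

end Pool.Agent.R721.HC
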