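import Pool.Agent.R721.HC.Odd

set_option linter.unusedSectionVars false
set_option autoImplicit false

open scoped BigOperators
open Matrix

noncomputable section

namespace Pool.Agent.R721.HC

section two

variable {F : Type} [Field F]

lemma sq_two (M : Matrix (Fin 2) (Fin 2) F) (h : M.det = 1) :
    M * M = (M.trace) • M - 1 := by
  rw [Matrix.det_fin_two] at h
  have e0 : M 0 0 * M 0 0 + M 0 1 * M 1 0 = (M 0 0 + M 1 1) * M 0 0 - 1 := by
    linear_combination (-1 : F) * h
  have e1 : M 1 0 * M 0 1 + M 1 1 * M 1 1 = (M 0 0 + M 1 1) * M 1 1 - 1 := by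
    linear_combination (-1 : F) * h
  ext i j
  rw [Matrix.mul_apply, Fin.sum_univ_two, Matrix.sub_apply, Matrix.smul_apply, Matrix.trace_fin_two]
  fin_cases i <;> fin_cases j
  · simpa using e0
  · simp; ring
  · simp; ring
  · simpa using e1

/-- no square root of a non-scalar involution when `2` is not a square -/
lemma four_two (h2 : (2 : F) ≠ 0) (hsq : ¬ IsSquare (2 : F)) (M : Matrix (Fin 2) (Fin 2) F)
    (h : M.det = 1) (c : F) (hc : c ^ 2 = 1) (hM : M ^ 4 = c • (1 : Matrix (Fin 2) (Fin 2) F)) :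
    ∃ d : F, d ^ 2 = 1 ∧ M ^ 2 = d • (1 : Matrix (Fin 2) (Fin 2) F) := by
  have hM2 : M ^ 2 = M.trace • M - 1 := by rw [sq, sq_two M h]
  set t := M.trace with ht
  have hcc : c = 1 ∨ c = -1 := by
    have h0 : (c - 1) * (c + 1) = 0 := by linear_combination hc
    rcases mul_eq_zero.mp h0 with h0 | h0
    · left; linear_combination h0
    · right; linear_combination h0
  have scal : ∀ (N : Matrix (Fin 2) (Fin 2) F) (e : F), N.det = 1 → N = e • 1 → e ^ 2 = 1 := by
    intro N e hN he
    rw [he, Matrix.det_smul, Matrix.det_one, mul_one, Fintype.card_fin] at hN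
    exact hN
  have hd2 : (M ^ 2).det = 1 := by rw [Matrix.det_pow, h, one_pow]
  rcases hcc with rfl | rfl
  · -- `N = M ^ 2` satisfies `N ^ 2 = 1`
    have h4 : M ^ 2 * M ^ 2 = 1 := by rw [← pow_add, hM, one_smul]
    have h5 := sq_two (M ^ 2) hd2
    rw [h4] at h5
    have h6 : (M ^ 2).trace • M ^ 2 = (2 : F) • (1 : Matrix (Fin 2) (Fin 2) F) := by
      rw [two_smul]
      nth_rewrite 1 [h5]
      abel
    by_cases ht0 : (M ^ 2).trace = 0
    · rw [ht0, zero_smul] at h6
      have := congrFun (congrFun h6 0) 0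
      simp at this
      exact absurd this.symm (by simpa using h2)
    · have h7 : M ^ 2 = (2 / (M ^ 2).trace) • (1 : Matrix (Fin 2) (Fin 2) F) := by
        rw [div_eq_inv_mul, mul_smul, ← h6, smul_smul, inv_mul_cancel₀ ht0, one_smul]
      exact ⟨_, scal _ _ hd2 h7, h7⟩
  · have h4 : M ^ 4 = (t ^ 3 - 2 * t) • M + (1 - t ^ 2) • (1 : Matrix (Fin 2) (Fin 2) F) := by
      have : M ^ 4 = M ^ 2 * M ^ 2 := by rw [← pow_add]
      rw [this, hM2, sub_mul, mul_sub, mul_one, one_mul, Matrix.smul_mul, Matrix.mul_smul, ← sq, hM2]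
      module
    rw [hM] at h4
    have h5 : (t * (t ^ 2 - 2)) • M = (t ^ 2 - 2) • (1 : Matrix (Fin 2) (Fin 2) F) := by
      have : (t * (t ^ 2 - 2)) • M = ((t ^ 3 - 2 * t) • M + (1 - t ^ 2) • (1 : Matrix (Fin 2) (Fin 2) F))
          - (1 - t ^ 2) • (1 : Matrix (Fin 2) (Fin 2) F) := by
        module
      rw [this, ← h4]
      module
    by_cases ht2 : t ^ 2 - 2 = 0
    · exact absurd ⟨t, by linear_combination (-1 : F) * ht2⟩ hsq
    · have h6 : t • M = 1 := by
        have := congrArg (fun N => (t ^ 2 - 2)⁻¹ • N) h5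
        simp only [smul_smul] at this
        rw [inv_mul_cancel₀ ht2, one_smul, mul_comm t, ← mul_assoc, inv_mul_cancel₀ ht2, one_mul] at this
        exact this
      have ht0 : t ≠ 0 := by
        intro h0
        rw [h0, zero_smul] at h6
        exact zero_ne_one h6
      have h7 : M = t⁻¹ • (1 : Matrix (Fin 2) (Fin 2) F) := by
        rw [← h6, smul_smul, inv_mul_cancel₀ ht0, one_smul]
      have h8 : M ^ 2 = (t⁻¹ * t⁻¹) • (1 : Matrix (Fin 2) (Fin 2) F) := by
        rw [sq, h7, Matrix.smul_mul, Matrix.mul_smul, smul_smul, Matrix.mul_one]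
      exact ⟨_, scal _ _ hd2 h8, h8⟩

lemma sum_sq [Fintype F] (hF : Fintype.card F % 2 = 1) (c : F) : ∃ a b : F, a ^ 2 + b ^ 2 = c := by
  obtain ⟨a, b, h⟩ := FiniteField.exists_root_sum_quadratic (R := F) (f := Polynomial.X ^ 2)
    (g := Polynomial.X ^ 2 - Polynomial.C c) (by simp) (by
      exact Polynomial.degree_X_pow_sub_C (by norm_num) c) hF
  refine ⟨a, b, ?_⟩
  simp at h
  linear_combination h

/-- the standard element with square `-1` -/
def i2 : Matrix (Fin 2) (Fin 2) F := !![0, 1; -1, 0]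

lemma conj_two [Fintype F] (hF : Fintype.card F % 2 = 1) (h2 : (2 : F) ≠ 0)
    (A : Matrix (Fin 2) (Fin 2) F) (hA : A.det = 1) (hA2 : A * A = (-1 : F) • 1) :
    ∃ K : Matrix (Fin 2) (Fin 2) F, K.det = 1 ∧ A * K = K * i2 := by
  have htr : A.trace = 0 := by
    have h1 := sq_two A hA
    rw [hA2] at h1
    have h3 : A.trace • A = 0 := by
      have : A.trace • A = (A.trace • A - 1) + 1 := by abel
      rw [this, ← h1]
      module
    rcases smul_eq_zero.mp h3 with h | h
    · exact h
    · exfalso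
      rw [h, Matrix.det_fin_two] at hA
      simp at hA
  rw [Matrix.trace_fin_two] at htr
  rw [Matrix.det_fin_two] at hA
  set x := A 0 0 with hx
  set y := A 0 1 with hy
  set z := A 1 0 with hz
  have hw : A 1 1 = -x := by linear_combination htr
  rw [hw] at hA
  have hAe : A = !![x, y; z, -x] := by
    rw [← hw]
    exact Matrix.eta_fin_two A
  obtain ⟨s, t, hst⟩ : ∃ s t : F, -(z * s ^ 2) + 2 * x * s * t + y * t ^ 2 = 1 := by
    by_cases hz0 : z = 0
    · have hx0 : x ≠ 0 := by
        intro h0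
        rw [h0, hz0] at hA
        simp at hA
      refine ⟨(1 - y) / (2 * x), 1, ?_⟩
      rw [hz0]
      field_simp
      ring
    · obtain ⟨S, T, hST⟩ := sum_sq hF (-1 / z)
      refine ⟨S + x * T, z * T, ?_⟩
      have h3 : (S ^ 2 + T ^ 2) * z = -1 := by rw [hST]; field_simp
      linear_combination (-z * T ^ 2) * hA - h3
  refine ⟨!![s, -(x * s + y * t); t, -(z * s - x * t)], ?_, ?_⟩
  · rw [Matrix.det_fin_two_of]
    linear_combination hst
  · rw [hAe]
    unfold i2
    ext i j
    rw [Matrix.mul_apply, Matrix.mul_apply, Fin.sum_univ_two, Fin.sum_univ_two]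
    fin_cases i <;> fin_cases j
    · simp
    · simp
      linear_combination s * hA
    · simp
      ring
    · simp
      linear_combination t * hA

/-- `2`-elements of `PSL_2(F)` are involutions or trivial when `2` is not a square -/
lemma psl_two_expo (h2 : (2 : F) ≠ 0) (hsq : ¬ IsSquare (2 : F))
    (h : Matrix.ProjectiveSpecialLinearGroup (Fin 2) F) (hh : ∃ k : ℕ, orderOf h = 2 ^ k) :
    h ^ 2 = 1 := by
  have key : ∀ u : Matrix.ProjectiveSpecialLinearGroup (Fin 2) F, u ^ 4 = 1 → u ^ 2 = 1 := by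
    intro u hu
    obtain ⟨M, rfl⟩ := QuotientGroup.mk_surjective u
    have h1 : (QuotientGroup.mk (M ^ 4) : Matrix.ProjectiveSpecialLinearGroup (Fin 2) F) = 1 := hu
    rw [QuotientGroup.eq_one_iff, Matrix.SpecialLinearGroup.mem_center_iff] at h1
    obtain ⟨c, hc, hcM⟩ := h1
    rw [Fintype.card_fin] at hc
    have hM4 : (M : Matrix (Fin 2) (Fin 2) F) ^ 4 = c • (1 : Matrix (Fin 2) (Fin 2) F) := by
      rw [← Matrix.SpecialLinearGroup.coe_pow, ← hcM, Matrix.scalar_apply, Matrix.smul_one_eq_diagonal]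
    obtain ⟨d, hd, hd2⟩ := four_two h2 hsq (M : Matrix (Fin 2) (Fin 2) F) M.2 c hc hM4
    have h3 : (QuotientGroup.mk (M ^ 2) : Matrix.ProjectiveSpecialLinearGroup (Fin 2) F) =
        QuotientGroup.mk 1 := by
      apply mk_eq_of_smul _ _ d
      rw [Matrix.SpecialLinearGroup.coe_pow, hd2]
      rfl
    exact h3
  obtain ⟨k, hk⟩ := hh
  have hall : ∀ j : ℕ, h ^ 2 ^ (j + 1) = 1 → h ^ 2 = 1 := by
    intro j
    induction j with
    | zero => intro h0; simpa using h0
    | succ j ih =>
      intro h0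
      apply ih
      have h1 := key (h ^ 2 ^ j) (by
        rw [← pow_mul]
        have : 2 ^ j * 4 = 2 ^ (j + 1 + 1) := by ring
        rw [this, h0])
      rw [← pow_mul] at h1
      rw [pow_succ]
      exact h1
  apply hall k
  rw [pow_succ, ← hk, pow_mul, pow_orderOf_eq_one, one_pow]

lemma zpow_add {G : Type} [Group G] {I : G} (hI : I ^ 2 = 1) (a b : ZMod 2) :
    I ^ (a + b).val = I ^ a.val * I ^ b.val := by
  rw [ZMod.val_add, ← pow_eq_pow_mod _ hI, pow_add]

/-- the homomorphism from the four group given by two commuting involutions -/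
def four {G : Type} [Group G] (I J : G) (hI : I ^ 2 = 1) (hJ : J ^ 2 = 1) (hc : Commute I J) :
    Multiplicative (ZMod 2 × ZMod 2) →* G where
  toFun w := I ^ (Multiplicative.toAdd w).1.val * J ^ (Multiplicative.toAdd w).2.val
  map_one' := by simp
  map_mul' w w' := by
    have h1 := zpow_add hI (Multiplicative.toAdd w).1 (Multiplicative.toAdd w').1
    have h2 := zpow_add hJ (Multiplicative.toAdd w).2 (Multiplicative.toAdd w').2
    have h3 : Commute (I ^ (Multiplicative.toAdd w').1.val) (J ^ (Multiplicative.toAdd w).2.val) :=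
      hc.pow_pow _ _
    change I ^ ((Multiplicative.toAdd w).1 + (Multiplicative.toAdd w').1).val *
      J ^ ((Multiplicative.toAdd w).2 + (Multiplicative.toAdd w').2).val = _
    rw [h1, h2]
    calc _ = I ^ (Multiplicative.toAdd w).1.val * (I ^ (Multiplicative.toAdd w').1.val *
          J ^ (Multiplicative.toAdd w).2.val) * J ^ (Multiplicative.toAdd w').2.val := by group
      _ = _ := by rw [h3.eq]; group

/-- the negative answer for `p = 2` -/
theorem two_part (F : Type) [Field F] [Fintype F]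
    (hq : Fintype.card F % 8 = 3 ∨ Fintype.card F % 8 = 5) :
    Fails (Matrix.ProjectiveSpecialLinearGroup (Fin 2) F) 2 2 := by
  classical
  have hodd : Fintype.card F % 2 = 1 := by omega
  have h2 : (2 : F) ≠ 0 := by
    have := FiniteField.even_card_iff_char_two (F := F)
    intro h0
    have h3 : ringChar F ∣ 2 := ringChar.dvd (by exact_mod_cast h0)
    have h4 : ringChar F = 2 := ((Nat.dvd_prime Nat.prime_two).mp h3).resolve_left
      (CharP.ringChar_ne_one)
    have := this.mp h4
    omega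
  have hsq : ¬ IsSquare (2 : F) := by
    rw [FiniteField.isSquare_two_iff]
    rintro ⟨h3, h4⟩
    omega
  obtain ⟨a, b, hab⟩ := sum_sq hodd (-1 : F)
  let Im : Matrix (Fin 2) (Fin 2) F := i2
  let Jm : Matrix (Fin 2) (Fin 2) F := !![a, b; b, -a]
  have hId : Im.det = 1 := by
    simp only [Im]; unfold i2; rw [Matrix.det_fin_two_of]; ring
  have hJd : Jm.det = 1 := by
    simp only [Jm]; rw [Matrix.det_fin_two_of]; linear_combination (-1 : F) * hab
  have hII : Im * Im = (-1 : F) • 1 := by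
    simp only [Im]; unfold i2
    rw [Matrix.mul_fin_two, Matrix.one_fin_two]
    simp
  have hJJ : Jm * Jm = (-1 : F) • 1 := by
    simp only [Jm]
    rw [Matrix.mul_fin_two, Matrix.one_fin_two]
    ext i j
    fin_cases i <;> fin_cases j
    · simp; linear_combination hab
    · simp; ring
    · simp; ring
    · simp; linear_combination hab
  have hIJ : Im * Jm = (-1 : F) • (Jm * Im) := by
    simp only [Jm, Im]; unfold i2
    rw [Matrix.mul_fin_two, Matrix.mul_fin_two]
    ext i j
    fin_cases i <;> fin_cases j <;> simp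
  let I : Matrix.SpecialLinearGroup (Fin 2) F := ⟨Im, hId⟩
  let J : Matrix.SpecialLinearGroup (Fin 2) F := ⟨Jm, hJd⟩
  let mk : Matrix.SpecialLinearGroup (Fin 2) F → Matrix.ProjectiveSpecialLinearGroup (Fin 2) F :=
    fun M => QuotientGroup.mk M
  have hsq1 : ∀ A : Matrix.SpecialLinearGroup (Fin 2) F,
      (A : Matrix (Fin 2) (Fin 2) F) * A = (-1 : F) • 1 → mk A ^ 2 = 1 := by
    intro A hA
    have h3 : mk (A * A) = mk 1 := mk_eq_of_smul _ _ (-1) hA
    rw [sq]
    exact h3
  have hcomm : Commute (mk I) (mk J) := by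
    have h3 : mk (I * J) = mk (J * I) := mk_eq_of_smul _ _ (-1) hIJ
    exact h3
  have hconj : ∀ A : Matrix.SpecialLinearGroup (Fin 2) F,
      (A : Matrix (Fin 2) (Fin 2) F) * A = (-1 : F) • 1 →
      ∃ y : Matrix.ProjectiveSpecialLinearGroup (Fin 2) F, mk A = y * mk I * y⁻¹ := by
    intro A hA
    obtain ⟨K, hK, hAK⟩ := conj_two hodd h2 (A : Matrix (Fin 2) (Fin 2) F) A.2 hA
    refine ⟨mk ⟨K, hK⟩, ?_⟩
    rw [eq_mul_inv_iff_mul_eq]
    have h3 : A * ⟨K, hK⟩ = ⟨K, hK⟩ * I := Subtype.ext hAK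
    have h4 : mk (A * ⟨K, hK⟩) = mk (⟨K, hK⟩ * I) := by rw [h3]
    exact h4
  have hIJ2 : ((I * J : Matrix.SpecialLinearGroup (Fin 2) F) : Matrix (Fin 2) (Fin 2) F) *
      ((I * J : Matrix.SpecialLinearGroup (Fin 2) F) : Matrix (Fin 2) (Fin 2) F) = (-1 : F) • 1 := by
    change (Im * Jm) * (Im * Jm) = _
    nth_rewrite 2 [hIJ]
    rw [Matrix.mul_smul, ← Matrix.mul_assoc, Matrix.mul_assoc Im Jm Jm, hJJ, Matrix.mul_smul,
      Matrix.mul_one, Matrix.smul_mul, hII]
    module
  refine ⟨mk I, 1, ?_, ?_⟩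
  · apply not_sim (p := 2) (m := 2) (fun h hh => by
      have := psl_two_expo h2 hsq h hh
      simpa using this)
    intro hc
    rw [isConj_one_left] at hc
    have h1 : (QuotientGroup.mk I : Matrix.ProjectiveSpecialLinearGroup (Fin 2) F) = 1 := hc
    rw [QuotientGroup.eq_one_iff, Matrix.SpecialLinearGroup.mem_center_iff] at h1
    obtain ⟨c, -, hcM⟩ := h1
    have h3 := congrFun (congrFun hcM 0) 1
    change Matrix.scalar (Fin 2) c 0 1 = Im 0 1 at h3
    simp [Im, i2] at h3
  · intro chi hchi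
    apply cong_of_transitive (four (mk I) (mk J) (hsq1 I hII) (hsq1 J hJJ) hcomm) (mk I) _ _ _ chi hchi
    · intro x hx
      have hcases : ∀ x : Multiplicative (ZMod 2 × ZMod 2), x ≠ 1 →
          x = Multiplicative.ofAdd (1, 0) ∨ x = Multiplicative.ofAdd (0, 1) ∨
            x = Multiplicative.ofAdd (1, 1) := by decide
      rcases hcases x hx with rfl | rfl | rfl
      · obtain ⟨y, hy⟩ := hconj I hII
        refine ⟨y, ?_⟩
        rw [← hy]
        change mk I ^ (1 : ZMod 2).val * mk J ^ (0 : ZMod 2).val = mk I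
        rw [ZMod.val_one, ZMod.val_zero, pow_one, pow_zero, mul_one]
      · obtain ⟨y, hy⟩ := hconj J hJJ
        refine ⟨y, ?_⟩
        rw [← hy]
        change mk I ^ (0 : ZMod 2).val * mk J ^ (1 : ZMod 2).val = mk J
        rw [ZMod.val_one, ZMod.val_zero, pow_one, pow_zero, one_mul]
      · obtain ⟨y, hy⟩ := hconj (I * J) hIJ2
        refine ⟨y, ?_⟩
        rw [← hy]
        change mk I ^ (1 : ZMod 2).val * mk J ^ (1 : ZMod 2).val = mk (I * J)
        rw [ZMod.val_one, pow_one, pow_one]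
        rfl
    · rw [Fintype.card_multiplicative, Fintype.card_prod, ZMod.card]
      norm_num

end two

end Pool.Agent.R721.HC
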