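import Pool.Agent.R721.HC.Defs

set_option linter.unusedSectionVars false
set_option autoImplicit false

open scoped BigOperators
open Matrix

noncomputable section

namespace Pool.Agent.R721.HC

/-! Weyl-Heisenberg matrices indexed by a finite field `E`, with entries in a field `F` -/

variable {E F : Type} [Field E] [Fintype E] [DecidableEq E] [Field F]

/-- the Weyl operator `(W a b f)(x) = psi (b x) f (x + a)` -/
def W (psi : AddChar E F) (a b : E) : Matrix E E F :=
  fun x y => if y = x + a then psi (b * x) else 0

lemma W_apply (psi : AddChar E F) (a b x y : E) :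
    W psi a b x y = if y = x + a then psi (b * x) else 0 := rfl

lemma W_mul (psi : AddChar E F) (a b a' b' : E) :
    W psi a b * W psi a' b' = psi (b' * a) • W psi (a + a') (b + b') := by
  ext x z
  rw [Matrix.mul_apply, Matrix.smul_apply]
  unfold W
  simp only [ite_mul, zero_mul, Finset.sum_ite_eq', Finset.mem_univ, if_true]
  rw [mul_ite, mul_zero, smul_eq_mul, mul_ite, mul_zero]
  by_cases h : z = x + a + a'
  · have h' : z = x + (a + a') := by rw [h]; ring
    rw [if_pos h, if_pos h', ← AddChar.map_add_eq_mul, ← AddChar.map_add_eq_mul]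
    congr 1
    ring
  · have h' : ¬ z = x + (a + a') := fun h' => h (by rw [h']; ring)
    rw [if_neg h, if_neg h']

lemma W_zero (psi : AddChar E F) : W psi 0 0 = 1 := by
  ext x y
  unfold W
  rw [Matrix.one_apply]
  by_cases h : x = y
  · simp [h]
  · have : ¬ y = x + 0 := fun h' => h (by rw [h']; ring)
    rw [if_neg h, if_neg this]

lemma W_zero_left (psi : AddChar E F) (b : E) : W psi 0 b = Matrix.diagonal fun x => psi (b * x) := by
  ext x y
  unfold W
  rw [Matrix.diagonal_apply]
  by_cases h : x = y
  · simp [h]
  · have : ¬ y = x + 0 := fun h' => h (by rw [h']; ring)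
    rw [if_neg h, if_neg this]

/-- the determinant of a Weyl operator is `1` in odd characteristic -/
lemma W_det {psi : AddChar E F} {n : ℕ} (hn : Fintype.card E = n) (hpsi : ∀ x, psi x ^ n = 1)
    (hodd : Odd n) (a b : E) : (W psi a b).det = 1 := by
  have hmul : ∀ a b a' b' : E, (W psi a b).det * (W psi a' b').det = (W psi (a + a') (b + b')).det := by
    intro a b a' b'
    rw [← Matrix.det_mul, W_mul, Matrix.det_smul, hn, hpsi, one_mul]
  have hneg : ∀ a b : E, (W psi (-a) (-b)).det = (W psi a b).det := by
    intro a b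
    have : W psi (-a) (-b) = (W psi a b).submatrix (Equiv.neg E) (Equiv.neg E) := by
      ext x y
      rw [Matrix.submatrix_apply, W_apply, W_apply, Equiv.neg_apply]
      by_cases h : y = x + -a
      · have h' : -y = -x + a := by rw [h]; ring
        rw [if_pos h, if_pos h']
        congr 1
        ring
      · have h' : ¬ -y = -x + a := fun h' => h (by linear_combination (-1 : E) * h')
        rw [if_neg h, if_neg h']
    rw [this, Matrix.det_submatrix_equiv_self]
  have h1 : (W psi a b).det * (W psi a b).det = 1 := by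
    have := hmul a b (-a) (-b)
    rw [hneg, add_neg_cancel, add_neg_cancel, W_zero, Matrix.det_one] at this
    exact this
  have hpow : ∀ k : ℕ, (W psi a b).det ^ k = (W psi (k * a) (k * b)).det := by
    intro k
    induction k with
    | zero => simp [W_zero]
    | succ k ih =>
      rw [pow_succ, ih, hmul]
      congr 2 <;> push_cast <;> ring
  have h2 : (W psi a b).det ^ n = 1 := by
    have hz : (n : E) = 0 := by rw [← hn]; exact Nat.cast_card_eq_zero E
    rw [hpow, hz, zero_mul, zero_mul, W_zero, Matrix.det_one]
  obtain ⟨k, rfl⟩ := hodd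
  rw [pow_add, pow_mul, pow_one, sq, h1, one_pow, one_mul] at h2
  exact h2

/-- an intertwiner of determinant one -/
def Inter (psi : AddChar E F) (A : Matrix E E F) : Prop :=
  ∃ (K : Matrix E E F) (c : F), K.det = 1 ∧ A * K = c • (K * W psi 0 1)

/-- adjusting the determinant of an intertwiner -/
lemma Inter.of_ne {psi : AddChar E F} {A K : Matrix E E F} {c : F} (hK : K.det ≠ 0)
    (h : A * K = c • (K * W psi 0 1)) : Inter psi A := by
  refine ⟨K * Matrix.diagonal (fun x => if x = 0 then K.det⁻¹ else 1), c, ?_, ?_⟩
  · rw [Matrix.det_mul, Matrix.det_diagonal, Finset.prod_ite_eq' Finset.univ (0 : E)]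
    rw [if_pos (Finset.mem_univ _), mul_inv_cancel₀ hK]
  · rw [← Matrix.mul_assoc, h, W_zero_left, Matrix.smul_mul, Matrix.mul_assoc, Matrix.mul_assoc,
      Matrix.diagonal_mul_diagonal, Matrix.diagonal_mul_diagonal]
    congr 3
    funext x
    exact mul_comm _ _

lemma inter_left {psi : AddChar E F} {n : ℕ} (hn : Fintype.card E = n) (hnF : (n : F) ≠ 0)
    (hprim : psi.IsPrimitive) (h2 : (2 : E) ≠ 0) {a b : E} (ha : a ≠ 0) : Inter psi (W psi a b) := by
  set s : E := - b / (2 * a) with hs
  have hs2 : 2 * a * s = - b := by rw [hs]; field_simp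
  let K : Matrix E E F := fun x y => psi (s * x ^ 2 + x * y / a)
  let K' : Matrix E E F := fun y x => psi (-(s * x ^ 2) - x * y / a)
  have hKK : K * K' = (n : F) • (1 : Matrix E E F) := by
    ext x z
    rw [Matrix.mul_apply, Matrix.smul_apply, Matrix.one_apply]
    have e1 : ∀ y : E, K x y * K' y z = psi (s * x ^ 2 - s * z ^ 2) * psi (y * ((x - z) / a)) := by
      intro y
      change psi (s * x ^ 2 + x * y / a) * psi (-(s * z ^ 2) - z * y / a) = _
      rw [← AddChar.map_add_eq_mul, ← AddChar.map_add_eq_mul]
      congr 1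
      field_simp
      ring
    rw [Finset.sum_congr rfl fun y _ => e1 y, ← Finset.mul_sum, AddChar.sum_mulShift _ hprim, hn]
    by_cases hxz : x = z
    · subst hxz
      simp
    · have : ¬ (x - z) / a = 0 := div_ne_zero (sub_ne_zero.mpr hxz) ha
      rw [if_neg this, if_neg hxz]
      simp
  have hdet : K.det ≠ 0 := by
    intro h0
    have := congrArg Matrix.det hKK
    rw [Matrix.det_mul, h0, zero_mul, Matrix.det_smul, Matrix.det_one, mul_one] at this
    exact pow_ne_zero _ hnF this.symm
  refine Inter.of_ne (c := psi (s * a ^ 2)) hdet ?_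
  ext x y
  rw [Matrix.mul_apply, Matrix.smul_apply, W_zero_left, Matrix.mul_diagonal]
  simp only [W_apply, ite_mul, zero_mul, Finset.sum_ite_eq', Finset.mem_univ, if_true]
  change psi (b * x) * psi (s * (x + a) ^ 2 + (x + a) * y / a) =
    psi (s * a ^ 2) • (psi (s * x ^ 2 + x * y / a) * psi (1 * y))
  rw [smul_eq_mul, ← AddChar.map_add_eq_mul, ← AddChar.map_add_eq_mul, ← AddChar.map_add_eq_mul]
  congr 1
  have e2 : (x + a) * y / a = x * y / a + y := by field_simp
  rw [e2]
  linear_combination x * hs2

lemma inter_right {psi : AddChar E F} {b : E} (hb : b ≠ 0) : Inter psi (W psi 0 b) := by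
  let K : Matrix E E F := fun x y => if y = b * x then 1 else 0
  let K' : Matrix E E F := fun y x => if y = b * x then 1 else 0
  have hKK : K * K' = 1 := by
    ext x z
    rw [Matrix.mul_apply, Matrix.one_apply]
    change ∑ y, (if y = b * x then (1 : F) else 0) * (if y = b * z then 1 else 0) = _
    simp only [ite_mul, zero_mul, one_mul, Finset.sum_ite_eq', Finset.mem_univ, if_true]
    by_cases hxz : x = z
    · subst hxz
      simp
    · have : ¬ b * x = b * z := fun h => hxz (mul_left_cancel₀ hb h)
      rw [if_neg this, if_neg hxz]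
  have hdet : K.det ≠ 0 := by
    intro h0
    have := congrArg Matrix.det hKK
    rw [Matrix.det_mul, h0, zero_mul, Matrix.det_one] at this
    exact zero_ne_one this
  refine Inter.of_ne (c := 1) hdet ?_
  ext x y
  rw [W_zero_left, W_zero_left, one_smul, Matrix.mul_diagonal, Matrix.diagonal_mul]
  change psi (b * x) * (if y = b * x then (1 : F) else 0) = (if y = b * x then 1 else 0) * psi (1 * y)
  by_cases h : y = b * x
  · rw [if_pos h, h]; ring_nf
  · rw [if_neg h]; ring

lemma inter_all {psi : AddChar E F} {n : ℕ} (hn : Fintype.card E = n) (hnF : (n : F) ≠ 0)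
    (hprim : psi.IsPrimitive) (h2 : (2 : E) ≠ 0) {a b : E} (hab : ¬ (a = 0 ∧ b = 0)) :
    Inter psi (W psi a b) := by
  by_cases ha : a = 0
  · subst ha
    exact inter_right (fun hb => hab ⟨rfl, hb⟩)
  · exact inter_left hn hnF hprim h2 ha

end Pool.Agent.R721.HC
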